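import Mathlib

set_option autoImplicit false

namespace Pool.Agent.Results.MP_0950f1_nt.Fixed

open Polynomial Filter

noncomputable def a (P : ℤ[X]) (N : ℤ) : ℕ → ℤ
  | 0 => N
  | 1 => N
  | n + 2 => a P N (n + 1) - Int.gcd (a P N (n + 1)) (P.eval ((n + 2 : ℕ) : ℤ))

theorem result :
    ∃ P : ℤ[X], Irreducible P ∧ P.natDegree = 2 ∧ (∀ n : ℕ, 1 ≤ n → 0 ≤ P.eval (n : ℤ)) ∧
      Tendsto (fun n : ℕ => P.eval (n : ℤ)) atTop atTop ∧
      ∀ N : ℕ, 1 ≤ N → ∃ f : ℕ, IsLeast {n : ℕ | 1 ≤ n ∧ a P N n = 0} f ∧ 2 * f ≤ N + 3 := by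
  have hm : (X ^ 2 + X + C 2 : ℤ[X]).Monic := by monicity!
  have hd : (X ^ 2 + X + C 2 : ℤ[X]).natDegree = 2 := by compute_degree!
  refine ⟨X ^ 2 + X + C 2, ?_, hd, fun n _ => by simp; positivity, ?_, fun N hN => ?_⟩
  · rw [hm.irreducible_iff_roots_eq_zero_of_degree_le_three (by omega) (by omega)]
    refine Multiset.eq_zero_of_forall_notMem fun x hx => ?_
    have := (mem_roots'.mp hx).2
    simp only [IsRoot, eval_add, eval_pow, eval_X, eval_C] at this
    nlinarith [sq_nonneg (2 * x + 1)]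
  · refine tendsto_atTop_mono (fun n => ?_) tendsto_natCast_atTop_atTop
    simp only [eval_add, eval_pow, eval_X, eval_C]
    nlinarith [sq_nonneg (n : ℤ)]
  · have key : ∀ n : ℕ, (∃ m, 1 ≤ m ∧ m ≤ n + 2 ∧ a (X ^ 2 + X + C 2) N m = 0) ∨
        (0 < a (X ^ 2 + X + C 2) N (n + 2) ∧ 2 ∣ a (X ^ 2 + X + C 2) N (n + 2) ∧
          a (X ^ 2 + X + C 2) N (n + 2) + 2 * n + 1 ≤ N) := by
      intro n
      induction n with
      | zero =>
        have e : a (X ^ 2 + X + C 2) N 2 = N - Int.gcd N 8 := by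
          simp [a]
        have h1 : ((Int.gcd N 8 : ℕ) : ℤ) ≤ N := Int.le_of_dvd (by omega) (Int.gcd_dvd_left ..)
        have h2 : 0 < Int.gcd N 8 := Int.gcd_pos_of_ne_zero_right _ (by norm_num)
        have h3 : (2 : ℤ) ∣ N - Int.gcd N 8 := by
          by_cases h : (2 : ℤ) ∣ N
          · exact dvd_sub h (Int.dvd_coe_gcd h (by norm_num))
          · have : ¬ (2 : ℤ) ∣ Int.gcd N 8 := fun h' => h (h'.trans (Int.gcd_dvd_left ..))
            omega
        rcases h1.lt_or_eq with h | h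
        · right
          rw [zero_add, e]
          omega
        · exact Or.inl ⟨2, by norm_num, le_rfl, by rw [e]; omega⟩
      | succ n ih =>
        rcases ih with ⟨m, h1, h2, h3⟩ | ⟨h1, h2, h3⟩
        · exact Or.inl ⟨m, h1, by omega, h3⟩
        · have e : a (X ^ 2 + X + C 2) N (n + 1 + 2) = a (X ^ 2 + X + C 2) N (n + 2) -
              Int.gcd (a (X ^ 2 + X + C 2) N (n + 2))
                ((X ^ 2 + X + C 2 : ℤ[X]).eval ((n + 1 + 2 : ℕ) : ℤ)) := rfl
          have hP : (2 : ℤ) ∣ (X ^ 2 + X + C 2 : ℤ[X]).eval ((n + 1 + 2 : ℕ) : ℤ) := by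
            simp only [eval_add, eval_pow, eval_X, eval_C]
            generalize ((n + 1 + 2 : ℕ) : ℤ) = y
            have := (Int.even_mul_succ_self y).two_dvd
            rw [show y ^ 2 + y + 2 = y * (y + 1) + 2 by ring]
            omega
          have g1 := Int.dvd_coe_gcd h2 hP
          have g2 := Int.le_of_dvd h1 (Int.gcd_dvd_left (a (X ^ 2 + X + C 2) N (n + 2))
            ((X ^ 2 + X + C 2 : ℤ[X]).eval ((n + 1 + 2 : ℕ) : ℤ)))
          have g3 := Int.gcd_pos_of_ne_zero_left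
            ((X ^ 2 + X + C 2 : ℤ[X]).eval ((n + 1 + 2 : ℕ) : ℤ)) h1.ne'
          rcases g2.lt_or_eq with h | h
          · right
            rw [e]
            push_cast at *
            omega
          · exact Or.inl ⟨n + 1 + 2, by omega, le_rfl, by rw [e]; omega⟩
    classical
    rcases key ((N - 1) / 2) with ⟨m, h1, h2, h3⟩ | ⟨h1, h2, h3⟩
    · have hex : ∃ n : ℕ, 1 ≤ n ∧ a (X ^ 2 + X + C 2) N n = 0 := ⟨m, h1, h3⟩
      refine ⟨Nat.find hex, ⟨Nat.find_spec hex, fun n hn => Nat.find_min' hex hn⟩, ?_⟩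
      have := Nat.find_min' hex ⟨h1, h3⟩
      omega
    · omega

end Pool.Agent.Results.MP_0950f1_nt.Fixed
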